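import Pool.Agent.H39.DIP2

/-! There is no least axiomatic extension of MTL with the deductive interpolation property. -/

namespace Pool.Agent.Results.MP_acc005_lc.NoLeast

open Set Pool.Agent.H39.DIP FLew

/-- The four-element Łukasiewicz chain. -/
abbrev algB : FLew (Fin 4) where
  mul x y := ![![0, 0, 0, 0], ![0, 0, 0, 1], ![0, 0, 1, 2], ![0, 1, 2, 3]] x y
  imp x y := ![![3, 3, 3, 3], ![2, 3, 3, 3], ![1, 2, 3, 3], ![0, 1, 2, 3]] x y
  mul_comm := by decide
  mul_assoc := by decide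
  mul_top := by decide
  res := by decide

/-- A five-element chain `0 < d < e < c < 1` with `c c = d`, `c e = 0`. -/
abbrev algC : FLew (Fin 5) where
  mul x y := ![![0, 0, 0, 0, 0], ![0, 0, 0, 0, 1], ![0, 0, 0, 0, 2], ![0, 0, 0, 1, 3],
    ![0, 1, 2, 3, 4]] x y
  imp x y := ![![4, 4, 4, 4, 4], ![3, 4, 4, 4, 4], ![3, 3, 4, 4, 4], ![2, 3, 3, 4, 4],
    ![0, 1, 2, 3, 4]] x y
  mul_comm := by decide
  mul_assoc := by decide
  mul_top := by decide
  res := by decide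

def ng (φ : Fm) : Fm := φ.imp .bot

def sq (φ : Fm) : Fm := φ.mul φ

def fx (φ : Fm) : Fm := (φ.imp (ng (sq φ))).and ((ng (sq φ)).imp φ)

theorem goodB : Good (range fun v : ℕ → Fin 4 => {ψ : Fm | @Fm.eval _ algB v ψ = ⊤}) := by
  let _ := algB
  refine good_fin (Fin 4) (by unfold Prelin; decide) (by decide) (by decide) fun x y h => ?_
  have h1 := h (.var 0)
  have h2 := h (ng (.var 0))
  have h3 := h (ng (sq (.var 0)))
  simp only [ng, sq, Fm.eval] at h1 h2 h3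
  clear h
  revert x y
  decide

theorem goodC : Good (range fun v : ℕ → Fin 5 => {ψ : Fm | @Fm.eval _ algC v ψ = ⊤}) := by
  let _ := algC
  refine good_fin (Fin 5) (by unfold Prelin; decide) (by decide) (by decide) fun x y h => ?_
  have h1 := h (.var 0)
  have h2 := h (ng (.var 0))
  have h3 := h (ng (sq (.var 0)))
  have h4 := h ((Fm.var 0).imp (sq (ng (.var 0))))
  simp only [ng, sq, Fm.eval] at h1 h2 h3 h4
  clear h
  revert x y
  decide

section
variable {A : Type} [FLew A]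

theorem tr (x y z : A) : mul (imp x y) (imp y z) ≤ imp x z := by
  rw [← res, FLew.mul_comm (imp x y), FLew.mul_assoc]
  exact (mono_r (mp _ _) _).trans (mp _ _)

theorem sw (a b c d : A) : mul (mul a b) (mul c d) = mul (mul a c) (mul b d) := by
  rw [FLew.mul_assoc, FLew.mul_assoc, ← FLew.mul_assoc b, ← FLew.mul_assoc c, FLew.mul_comm b c]

theorem anti (x y : A) : mul (imp x y) (imp x y) ≤ imp (imp (mul y y) ⊥) (imp (mul x x) ⊥) := by
  rw [← res]
  refine le_trans (mono_l ?_ _) (tr _ (mul y y) _)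
  rw [← res, sw]
  exact (mono_l (mp _ _) _).trans (mono_r (mp _ _) _)

theorem dis {x y s z : A} (h : x ⊔ y = ⊤) (h1 : mul s (mul x x) ≤ z) (h2 : mul s (mul y y) ≤ z) :
    s ≤ z := by
  have h3 : ∀ {s z : A}, mul s x ≤ z → mul s y ≤ z → s ≤ z := fun {s z} a b => by
    rw [FLew.mul_comm, res] at a b
    rw [← top_mul s, res, ← h]
    exact sup_le a b
  rw [← FLew.mul_assoc] at h1 h2
  refine h3 (h3 h1 (h3 ?_ ?_)) (h3 (h3 ?_ ?_) h2)
  · rw [FLew.mul_assoc, FLew.mul_comm y, ← FLew.mul_assoc]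
    exact (mul_le_l _ _).trans h1
  · rw [FLew.mul_assoc s, FLew.mul_comm x, ← FLew.mul_assoc, FLew.mul_assoc _ x, FLew.mul_comm x,
      ← FLew.mul_assoc]
    exact (mul_le_l _ _).trans h2
  · rw [FLew.mul_assoc s, FLew.mul_comm y, ← FLew.mul_assoc, FLew.mul_assoc _ y, FLew.mul_comm y,
      ← FLew.mul_assoc]
    exact (mul_le_l _ _).trans h1
  · rw [FLew.mul_assoc, FLew.mul_comm x, ← FLew.mul_assoc]
    exact (mul_le_l _ _).trans h2

theorem key (h : Prelin A) {p q s : A} (h1 : p = imp (mul p p) ⊥) (h2 : imp p ⊥ ≤ mul p p)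
    (h4 : s ≤ imp (imp (mul q q) ⊥) q) :
    mul s (mul s s) ≤ imp (imp q ⊥) (mul q q) := by
  have h5 : s ≤ imp p q := by
    refine dis (h p q) (FLew.mul_comm s _ ▸ (mul_le_l _ _).trans (mul_le_l _ _)) ?_
    rw [FLew.mul_comm]
    refine (mono_l (anti q p) _).trans ((mono_r h4 _).trans ?_)
    rw [← h1]
    exact tr _ _ _
  rw [← res, FLew.mul_comm s, FLew.mul_assoc]
  refine (mono_r (((mono_l h5 _).trans (tr _ _ _)).trans h2) _).trans ?_
  rw [sw]
  exact (mono_l ((mono_l h5 _).trans (mp _ _)) _).trans (mono_r ((mono_l h5 _).trans (mp _ _)) _)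

end

theorem closed {δ : Fm} (h : δ.vars ⊆ ∅) (v : ℕ → Fin 4) (w : ℕ → Fin 5) :
    (@Fm.eval _ algB v δ = 0 ∧ @Fm.eval _ algC w δ = 0) ∨
      (@Fm.eval _ algB v δ = 3 ∧ @Fm.eval _ algC w δ = 4) := by
  induction δ with
  | var n => exact (h rfl).elim
  | bot => exact Or.inl ⟨rfl, rfl⟩
  | top => exact Or.inr ⟨rfl, rfl⟩
  | _ φ ψ a b =>
    simp only [Fm.eval]
    rcases a (subset_union_left.trans h) with ⟨a1, a2⟩ | ⟨a1, a2⟩ <;>
      rcases b (subset_union_right.trans h) with ⟨b1, b2⟩ | ⟨b1, b2⟩ <;>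
      rw [a1, a2, b1, b2] <;> decide

theorem result : ¬∃ L0, AxExt ConsMTL L0 ∧ HasDIP L0 ∧
    ∀ L, AxExt ConsMTL L → HasDIP L → ∀ Γ φ, L0 Γ φ → L Γ φ := by
  rintro ⟨L0, ⟨Ax, -, h1⟩, h2, h3⟩
  obtain ⟨Δ, h4, h5⟩ := h2 {fx (.var 0), (ng (.var 0)).imp (sq (.var 0))}
    (((fx (.var 1)).mul (sq (fx (.var 1)))).imp ((ng (.var 1)).imp (sq (.var 1))))
    ((h1 _ _).2 fun A _ hA v hv => by
      have a := hv _ (Or.inr (Or.inl rfl))
      have b := hv _ (Or.inr (Or.inr rfl))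
      simp only [fx, ng, sq, Fm.eval, inf_eq_top_iff, imp_top_iff] at a b ⊢
      exact key hA (a.1.antisymm a.2) b inf_le_right)
  have h6 := h3 _ goodC.axMTL goodC.dip _ _ h5 _ ⟨fun _ => 3, rfl⟩ fun δ hδ => by
    have a := h3 _ goodB.axMTL goodB.dip _ _ (h4 δ hδ).2 _ ⟨fun _ => 2, rfl⟩ (by
      rintro _ (rfl | rfl) <;> rfl)
    have b := closed ((h4 δ hδ).1.trans (by simp [fx, ng, sq, Fm.vars])) (fun _ => 2) fun _ => 3
    exact (b.resolve_left fun c => by simpa [c.1] using a.symm.trans c.1).2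
  revert h6
  simp only [mem_ofPred_eq]
  decide

end Pool.Agent.Results.MP_acc005_lc.NoLeast
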